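import Pool.Agent.Helper38.ND.Goals

set_option autoImplicit false

namespace Pool.Agent.Helper61.ND

open Finset Pool.Agent.Helper38.ND

/-- the clamp of `t` into `[0,1]` composed with the affine function -/
noncomputable def ll (a b x : ℝ) : ℝ := max 0 (min 1 ((x - a) / (b - a)))

theorem ll_nonneg (a b x : ℝ) : 0 ≤ ll a b x := le_max_left _ _

theorem ll_le_one (a b x : ℝ) : ll a b x ≤ 1 := max_le zero_le_one (min_le_left _ _)

theorem ll_low {a b x : ℝ} (hab : a < b) (hx : x ≤ a) : ll a b x = 0 := by
  unfold ll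
  apply max_eq_left
  apply le_trans (min_le_right _ _)
  apply div_nonpos_of_nonpos_of_nonneg <;> linarith

theorem ll_high {a b x : ℝ} (hab : a < b) (hx : b ≤ x) : ll a b x = 1 := by
  unfold ll
  have h : 1 ≤ (x - a) / (b - a) := by
    rw [le_div_iff₀ (by linarith)]; linarith
  rw [min_eq_left h]
  simp

theorem ll_cont (a b : ℝ) : Continuous (ll a b) := by
  unfold ll
  fun_prop

theorem n_pol : N_POL := by
  intro δ ε hδ hε
  set a : ℝ := Real.exp (-(1 + δ)) with ha
  set b : ℝ := Real.exp (-1) with hb
  have ha0 : 0 < a := Real.exp_pos _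
  have hb0 : 0 < b := Real.exp_pos _
  have hab : a < b := by
    rw [ha, hb]; apply Real.exp_lt_exp.mpr; linarith
  -- the function
  let f : ℝ → ℝ := fun x => ll a b x / max x a
  have hfc : Continuous f := by
    refine Continuous.div (ll_cont a b) (by fun_prop) ?_
    intro x
    have : 0 < max x a := lt_max_of_lt_right ha0
    exact this.ne'
  obtain ⟨R, hR⟩ := exists_polynomial_near_of_continuousOn 0 1 (fun x => f x + ε / 2)
    (by exact (hfc.add continuous_const).continuousOn) (ε / 2) (by linarith)
  have key : ∀ t : ℝ, 0 ≤ t → f (Real.exp (-t)) ≤ R.eval (Real.exp (-t)) ∧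
      R.eval (Real.exp (-t)) ≤ f (Real.exp (-t)) + ε := by
    intro t ht
    have h := hR (Real.exp (-t)) ⟨(Real.exp_pos _).le, Real.exp_le_one_iff.mpr (by linarith)⟩
    rw [abs_lt] at h
    constructor <;> linarith [h.1, h.2]
  refine ⟨fun t => Real.exp (-t) * R.eval (Real.exp (-t)), ?_, ?_, ?_, ?_⟩
  · refine ⟨fun t ht => ?_, R.natDegree + 1, fun k => R.coeff k, fun t => ?_⟩
    · have hx0 : 0 < Real.exp (-t) := Real.exp_pos _
      have hf0 : 0 ≤ f (Real.exp (-t)) := by
        simp only [f]
        exact div_nonneg (ll_nonneg _ _ _) (le_max_of_le_left hx0.le)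
      exact mul_nonneg hx0.le (hf0.trans (key t ht).1)
    · simp only
      rw [Polynomial.eval_eq_sum_range, Finset.mul_sum]
      refine Finset.sum_congr rfl fun k _ => ?_
      have h : Real.exp (-(((k : ℝ) + 1) * t)) = Real.exp (-t) * Real.exp (-t) ^ k := by
        rw [← Real.exp_nat_mul, ← Real.exp_add]
        congr 1
        ring
      rw [h]
      ring
  · intro t h0 h1
    have hx0 : 0 < Real.exp (-t) := Real.exp_pos _
    have hx : b ≤ Real.exp (-t) := by
      rw [hb]; apply Real.exp_le_exp.mpr; linarith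
    have hfx : f (Real.exp (-t)) = 1 / Real.exp (-t) := by
      simp only [f]
      rw [ll_high hab hx, max_eq_left (by linarith)]
    have := (key t h0).1
    rw [hfx] at this
    calc (1 : ℝ) = Real.exp (-t) * (1 / Real.exp (-t)) := by field_simp
      _ ≤ _ := mul_le_mul_of_nonneg_left this hx0.le
  · intro t h0 h1
    have hx0 : 0 < Real.exp (-t) := Real.exp_pos _
    have hxf : Real.exp (-t) * f (Real.exp (-t)) ≤ 1 := by
      simp only [f]
      have h2 : 0 < max (Real.exp (-t)) a := lt_max_of_lt_right ha0
      rw [mul_div_assoc', div_le_one h2]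
      calc Real.exp (-t) * ll a b (Real.exp (-t)) ≤ Real.exp (-t) * 1 :=
            mul_le_mul_of_nonneg_left (ll_le_one _ _ _) hx0.le
        _ ≤ _ := by rw [mul_one]; exact le_max_left _ _
    have := mul_le_mul_of_nonneg_left (key t h0).2 hx0.le
    nlinarith [this]
  · intro t h1
    have hx0 : 0 < Real.exp (-t) := Real.exp_pos _
    have h0 : 0 ≤ t := by linarith
    have hx : Real.exp (-t) ≤ a := by
      rw [ha]; apply Real.exp_le_exp.mpr; linarith
    have hfx : f (Real.exp (-t)) = 0 := by
      simp only [f]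
      rw [ll_low hab hx, zero_div]
    have := mul_le_mul_of_nonneg_left (key t h0).2 hx0.le
    rw [hfx] at this
    nlinarith [this]

end Pool.Agent.Helper61.ND
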